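import Pool.Agent.H878R2.Cov.Fin

/-!
# Smooth convex bodies are determined by the covariogram among all convex bodies
-/

namespace Pool.Agent.Results.MP_44f726_gt.SmoothAmongAll

open MeasureTheory Set Topology

/-- A convex body in `ℝⁿ`: a compact convex set with nonempty interior. -/
def IsConvexBody {n : ℕ} (K : Set (EuclideanSpace ℝ (Fin n))) : Prop :=
  IsCompact K ∧ Convex ℝ K ∧ (interior K).Nonempty

/-- The covariogram `g_K(x) = vol (K ∩ (K + x))`. -/
noncomputable def covariogram {n : ℕ} (K : Set (EuclideanSpace ℝ (Fin n)))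
    (x : EuclideanSpace ℝ (Fin n)) : ℝ :=
  (volume (K ∩ (fun y => y + x) '' K)).toReal

/-- `K` is of class `C^r_+` (for `r ≥ 2`): its boundary is a `C^r` hypersurface with nonvanishing
Gauss curvature.  Near every boundary point `p` the set `K` is `{ρ ≤ 0}` with a function `ρ` which
is `C^r` in a neighbourhood of `p` and has nonzero derivative at `p`, and the second derivative of
`ρ` at `p`, restricted to the tangent hyperplane `{w : dρ(p) w = 0}` (a nonzero multiple of the
second fundamental form of the boundary at `p`), is nondegenerate.  For a convex body the second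
fundamental form is semidefinite, so this says that the Gauss curvature is strictly positive at
every point. -/
def IsCPlus {n : ℕ} (r : ℕ) (K : Set (EuclideanSpace ℝ (Fin n))) : Prop :=
  ∀ p ∈ frontier K, ∃ ρ : EuclideanSpace ℝ (Fin n) → ℝ,
    ContDiffAt ℝ r ρ p ∧ fderiv ℝ ρ p ≠ 0 ∧ (∀ᶠ x in 𝓝 p, x ∈ K ↔ ρ x ≤ 0) ∧
    ∀ w, w ≠ 0 → fderiv ℝ ρ p w = 0 →
      ∃ w', fderiv ℝ ρ p w' = 0 ∧ fderiv ℝ (fderiv ℝ ρ) p w w' ≠ 0

/-- `H` equals `K` up to translations and reflections. -/
def EqUpToTransRefl {n : ℕ} (H K : Set (EuclideanSpace ℝ (Fin n))) : Prop :=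
  ∃ t : EuclideanSpace ℝ (Fin n), H = (fun y => y + t) '' K ∨ H = (fun y => -y + t) '' K

/-- **The answer to the question is yes.**  For every `n ≥ 2` and every `r ≥ 2`: if `K` is a convex
body in `ℝⁿ` of class `C^r_+` and `H` is any convex body in `ℝⁿ` with `g_H = g_K`, then `H` equals
`K` up to translations and reflections.  The question is the case `n ≥ 3`, `r = r(n)`, see
`question1` below. -/
theorem result : ∀ n : ℕ, 2 ≤ n → ∀ r : ℕ, 2 ≤ r → ∀ K H : Set (EuclideanSpace ℝ (Fin n)),
    IsConvexBody K → IsCPlus r K → IsConvexBody H → (∀ x, covariogram H x = covariogram K x) →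
    EqUpToTransRefl H K := by
  intro n hn r hr K H hK hKr hH hg
  obtain ⟨hK1, hK2, hK3⟩ := hK
  obtain ⟨hH1, hH2, hH3⟩ := hH
  have hK4 : Pool.Agent.Helper890.Cov.IsC2Plus K := by
    intro p hp
    obtain ⟨ρ, h1, h2, h3, h4⟩ := hKr p hp
    exact ⟨ρ, h1.of_le (by exact_mod_cast hr), h2, h3, h4⟩
  exact Pool.Agent.H878R2.Cov.fin_all hn (Pool.Agent.H878R2.Cov.reg_c2 hn hK1 hK2 hK3 hK4) hH1 hH2 hH3
    (fun x => (hg x).symm)

/-- The order of smoothness `r(n)` of the problem: `8` for `n = 2, 4, 6`, `9` for `n = 3, 5, 7` and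
`⌊(n-1)/2⌋ + 5` for `n ≥ 8`. -/
def rOf (n : ℕ) : ℕ :=
  if n = 2 ∨ n = 4 ∨ n = 6 then 8 else if n = 3 ∨ n = 5 ∨ n = 7 then 9 else (n - 1) / 2 + 5

/-- The question exactly as posed, a special case of `result`. -/
theorem question1 : ∀ n : ℕ, 3 ≤ n → ∀ K H : Set (EuclideanSpace ℝ (Fin n)),
    IsConvexBody K → IsCPlus (rOf n) K → IsConvexBody H →
    (∀ x, covariogram H x = covariogram K x) → EqUpToTransRefl H K := by
  intro n hn K H
  refine result n (by omega) (rOf n) ?_ K H
  unfold rOf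
  split_ifs
  · norm_num
  · norm_num
  · omega

end Pool.Agent.Results.MP_44f726_gt.SmoothAmongAll
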